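import Pool.Agent.Helper37.KF.Stmts

/-!
# Module 12 (EXP): the exponents, total cost and change under a raise
-/

namespace Pool.Agent.Helper98.KF

open Finset
open scoped Classical
open Pool.Agent.Helper37.KF

noncomputable section

/-- telescoping function -/
def phi (u v : ℝ) : ℝ := 3 * u ^ 2 * (v / (v + u))

lemma phi_nonneg {u v : ℝ} (hu : 0 < u) (hv : 0 < v) : 0 ≤ phi u v := by
  unfold phi; positivity

lemma phi_le {u v : ℝ} (hu : 0 < u) (hv : 0 < v) : phi u v ≤ 3 * u ^ 2 := by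
  unfold phi
  have : v / (v + u) ≤ 1 := by
    rw [div_le_one (by positivity)]; linarith
  nlinarith [sq_nonneg u, mul_pos hu hu]

lemma phi_diff {u v : ℝ} (hu : 0 < u) (hv : 0 < v) :
    phi u (41 * v) - phi u v = 120 * u ^ 3 * v / ((41 * v + u) * (v + u)) := by
  unfold phi
  field_simp
  ring

lemma diff_small {u v : ℝ} (hu : 0 < u) (hv : 0 < v) (h : v ≤ u) :
    v * u ≤ phi u (41 * v) - phi u v := by
  rw [phi_diff hu hv, le_div_iff₀ (by positivity)]
  have h1 : (41 * v + u) * (v + u) ≤ 84 * u ^ 2 := by nlinarith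
  have h2 : v * u * ((41 * v + u) * (v + u)) ≤ v * u * (84 * u ^ 2) :=
    mul_le_mul_of_nonneg_left h1 (by positivity)
  have h3 : 0 ≤ u ^ 3 * v := by positivity
  nlinarith

lemma diff_large {u v : ℝ} (hu : 0 < u) (hv : 0 < v) (h : u ≤ v) :
    u ^ 4 / v ^ 2 ≤ phi u (41 * v) - phi u v := by
  rw [phi_diff hu hv, div_le_div_iff₀ (by positivity) (by positivity)]
  have h1 : (41 * v + u) * (v + u) ≤ 84 * v ^ 2 := by nlinarith
  have h2 : u ^ 4 * ((41 * v + u) * (v + u)) ≤ u ^ 4 * (84 * v ^ 2) :=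
    mul_le_mul_of_nonneg_left h1 (by positivity)
  have h3 : u ^ 4 * v ^ 2 ≤ u ^ 3 * v ^ 3 := by
    have : u ^ 3 * v ^ 2 * u ≤ u ^ 3 * v ^ 2 * v := mul_le_mul_of_nonneg_left h (by positivity)
    nlinarith
  have h4 : 0 ≤ u ^ 3 * v ^ 3 := by positivity
  nlinarith

lemma Ga_pow (n : ℕ) : Ga ^ n = ((41 : ℝ) ^ n) ^ 2 := by
  unfold Ga gg
  rw [← pow_mul, ← pow_mul, mul_comm]

lemma NN_pos (J : ℕ) (d : ℤ) : 0 < NN J d := by
  unfold NN gg
  split_ifs <;> positivity

/-- one term -/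
lemma term_le (J j l : ℕ) :
    Ga ^ l / NN J ((j : ℤ) - l) ≤
      phi ((41 : ℝ) ^ j / 41 ^ J) (41 ^ (l + 1)) - phi ((41 : ℝ) ^ j / 41 ^ J) (41 ^ l) := by
  have e1 : (41 : ℝ) ^ (l + 1) = 41 * 41 ^ l := by ring
  rw [e1]
  have hu : (0 : ℝ) < (41 : ℝ) ^ j / 41 ^ J := by positivity
  have hv : (0 : ℝ) < (41 : ℝ) ^ l := by positivity
  unfold NN
  split_ifs with hc
  · obtain ⟨n, hn⟩ : ∃ n : ℕ, j = l + J + n := ⟨j - (l + J), by omega⟩
    have h0 : ((j : ℤ) - l - J).toNat = n := by omega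
    have h1 : (41 : ℝ) ^ j / 41 ^ J = 41 ^ (l + n) := by
      rw [hn, div_eq_iff (by positivity)]; ring
    have h2 : (41 : ℝ) ^ l ≤ (41 : ℝ) ^ j / 41 ^ J := by
      rw [h1]; exact pow_le_pow_right₀ (by norm_num) (by omega)
    refine le_trans (le_of_eq ?_) (diff_small hu hv h2)
    rw [h0, h1, Ga_pow]
    unfold gg
    rw [div_inv_eq_mul]
    ring
  · obtain ⟨n, hn⟩ : ∃ n : ℕ, J + l = j + n := ⟨J + l - j, by omega⟩
    have h0 : ((J : ℤ) - (j - l)).toNat = n := by omega
    have h1 : (41 : ℝ) ^ j / 41 ^ J = 41 ^ l / 41 ^ n := by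
      rw [div_eq_div_iff (by positivity) (by positivity), ← pow_add, ← pow_add]
      congr 1; omega
    have h2 : (41 : ℝ) ^ j / 41 ^ J ≤ (41 : ℝ) ^ l := by
      rw [h1]; exact div_le_self (by positivity) (one_le_pow₀ (by norm_num))
    refine le_trans (le_of_eq ?_) (diff_large hu hv h2)
    rw [h0, h1, Ga_pow]
    unfold gg
    field_simp

lemma sum_le (J j N : ℕ) :
    ∑ l ∈ Finset.range N, Ga ^ l / NN J ((j : ℤ) - l) ≤ 3 * Ga ^ j / Ga ^ J := by
  have hu : (0 : ℝ) < (41 : ℝ) ^ j / 41 ^ J := by positivity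
  have h1 : ∑ l ∈ Finset.range N, Ga ^ l / NN J ((j : ℤ) - l) ≤
      ∑ l ∈ Finset.range N, (phi ((41 : ℝ) ^ j / 41 ^ J) (41 ^ (l + 1))
        - phi ((41 : ℝ) ^ j / 41 ^ J) (41 ^ l)) :=
    Finset.sum_le_sum fun l _ => term_le J j l
  rw [Finset.sum_range_sub (fun l => phi ((41 : ℝ) ^ j / 41 ^ J) (41 ^ l))] at h1
  have h2 := phi_le hu (v := (41 : ℝ) ^ N) (by positivity)
  have h3 := phi_nonneg hu (v := (41 : ℝ) ^ 0) (by positivity)
  have h4 : 3 * ((41 : ℝ) ^ j / 41 ^ J) ^ 2 = 3 * Ga ^ j / Ga ^ J := by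
    unfold Ga gg
    rw [div_pow, ← pow_mul, ← pow_mul, ← pow_mul, ← pow_mul, mul_comm j 2, mul_comm J 2,
      mul_div_assoc]
  linarith

lemma logp_le {x : ℝ} (hx : 0 ≤ x) : max 0 (Real.log x) ≤ x :=
  max_le hx (Real.log_le_self hx)

/-- `log+` is 1-Lipschitz -/
lemma logp_lip {x y : ℝ} (hx : 0 ≤ x) (hy : 0 ≤ y) :
    max 0 (Real.log (x + y)) - max 0 (Real.log x) ≤ y := by
  by_cases h : 1 ≤ x
  · have hx0 : 0 < x := by linarith
    have h1 : 0 ≤ Real.log x := Real.log_nonneg h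
    have h2 : 0 ≤ Real.log (x + y) := Real.log_nonneg (by linarith)
    rw [max_eq_right h1, max_eq_right h2]
    have h3 : Real.log (x + y) - Real.log x = Real.log ((x + y) / x) := by
      rw [Real.log_div (by linarith) hx0.ne']
    rw [h3]
    have h4 : Real.log ((x + y) / x) ≤ (x + y) / x - 1 :=
      Real.log_le_sub_one_of_pos (by positivity)
    have h5 : (x + y) / x - 1 = y / x := by field_simp; ring
    have h6 : y / x ≤ y := div_le_self hy h
    linarith
  · rw [not_le] at h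
    have h1 : max 0 (Real.log x) = 0 := max_eq_left (Real.log_nonpos hx h.le)
    rw [h1, sub_zero]
    refine max_le hy ?_
    rcases (add_nonneg hx hy).eq_or_lt with h2 | h2
    · rw [← h2, Real.log_zero]; exact hy
    · have := Real.log_le_sub_one_of_pos h2
      linarith

lemma logp_mono {x y : ℝ} (hx : 0 ≤ x) (hxy : x ≤ y) :
    max 0 (Real.log x) ≤ max 0 (Real.log y) := by
  rcases hx.eq_or_lt with h | h
  · subst h; simp
  · exact max_le_max le_rfl (Real.log_le_log h hxy)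

lemma choose_J (δ : ℝ) (hδ : 0 < δ) : ∃ J : ℕ, 3 * Ga / Ga ^ J ≤ δ ∧ 3 / Ga ^ J ≤ δ := by
  have hG : (1 : ℝ) < Ga := by unfold Ga gg; norm_num
  obtain ⟨J, hJ⟩ := pow_unbounded_of_one_lt (3 * Ga / δ) hG
  refine ⟨J, ?_, ?_⟩
  · rw [div_le_iff₀ (by positivity)]
    rw [div_lt_iff₀ hδ] at hJ
    linarith
  · rw [div_le_iff₀ (by positivity)]
    rw [div_lt_iff₀ hδ] at hJ
    nlinarith

theorem st_exp : ST_EXP := by
  intro δ hδ
  obtain ⟨J, hJ1, hJ2⟩ := choose_J δ hδ
  have hG : (0 : ℝ) < Ga := by unfold Ga gg; norm_num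
  refine ⟨J, ?_, ?_⟩
  · intro r M N hr
    calc ∑ i ∈ Finset.range N, Ga ^ i * ex r J M i
        = ∑ i ∈ Finset.range N, ∑ j ∈ Finset.range M,
            Ga ^ i * max 0 (Real.log (r j / NN J ((j : ℤ) - i))) := by
          refine Finset.sum_congr rfl fun i _ => ?_
          rw [ex, Finset.mul_sum]
      _ ≤ ∑ i ∈ Finset.range N, ∑ j ∈ Finset.range M,
            r j * (Ga ^ i / NN J ((j : ℤ) - i)) := by
          refine Finset.sum_le_sum fun i _ => Finset.sum_le_sum fun j _ => ?_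
          have h1 := logp_le (div_nonneg (hr j) (NN_pos J ((j : ℤ) - i)).le)
          have h2 : r j * (Ga ^ i / NN J ((j : ℤ) - i)) = Ga ^ i * (r j / NN J ((j : ℤ) - i)) := by
            ring
          rw [h2]
          exact mul_le_mul_of_nonneg_left h1 (by positivity)
      _ = ∑ j ∈ Finset.range M, r j * ∑ i ∈ Finset.range N, Ga ^ i / NN J ((j : ℤ) - i) := by
          rw [Finset.sum_comm]
          refine Finset.sum_congr rfl fun j _ => ?_
          rw [Finset.mul_sum]
      _ ≤ ∑ j ∈ Finset.range M, r j * (3 * Ga ^ j / Ga ^ J) :=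
          Finset.sum_le_sum fun j _ => mul_le_mul_of_nonneg_left (sum_le J j N) (hr j)
      _ ≤ δ * ∑ j ∈ Finset.range M, Ga ^ j * r j := by
          rw [Finset.mul_sum]
          refine Finset.sum_le_sum fun j _ => ?_
          have h2 : r j * (3 * Ga ^ j / Ga ^ J) = (3 / Ga ^ J) * (Ga ^ j * r j) := by ring
          rw [h2]
          exact mul_le_mul_of_nonneg_right hJ2 (mul_nonneg (by positivity) (hr j))
  · intro r r' M N i x hr hx he hi
    have hle : ∀ j, r j ≤ r' j := by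
      intro j
      by_cases hj : j = i + 1
      · rw [hj, hi]; linarith
      · rw [he j hj]
    refine ⟨?_, ?_⟩
    · intro l
      unfold ex
      refine Finset.sum_le_sum fun j _ => ?_
      exact logp_mono (div_nonneg (hr j) (NN_pos _ _).le)
        (div_le_div_of_nonneg_right (hle j) (NN_pos _ _).le)
    · have key : ∀ l, ex r' J M l - ex r J M l ≤ x / NN J (((i + 1 : ℕ) : ℤ) - l) := by
        intro l
        unfold ex
        rw [← Finset.sum_sub_distrib]
        have hz : ∀ j ∈ Finset.range M, j ≠ i + 1 →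
            max 0 (Real.log (r' j / NN J ((j : ℤ) - l)))
              - max 0 (Real.log (r j / NN J ((j : ℤ) - l))) = 0 := by
          intro j _ hj
          rw [he j hj, sub_self]
        by_cases hM : i + 1 ∈ Finset.range M
        · rw [Finset.sum_eq_single_of_mem (i + 1) hM hz, hi, add_div]
          exact logp_lip (div_nonneg (hr _) (NN_pos _ _).le) (div_nonneg hx (NN_pos _ _).le)
        · rw [Finset.sum_eq_zero]
          · exact div_nonneg hx (NN_pos _ _).le
          · intro j hj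
            exact hz j hj (fun h => hM (h ▸ hj))
      calc ∑ l ∈ Finset.range N, Ga ^ l * (ex r' J M l - ex r J M l)
          ≤ ∑ l ∈ Finset.range N, x * (Ga ^ l / NN J (((i + 1 : ℕ) : ℤ) - l)) := by
            refine Finset.sum_le_sum fun l _ => ?_
            have h2 : x * (Ga ^ l / NN J (((i + 1 : ℕ) : ℤ) - l))
                = Ga ^ l * (x / NN J (((i + 1 : ℕ) : ℤ) - l)) := by ring
            rw [h2]
            exact mul_le_mul_of_nonneg_left (key l) (by positivity)
        _ = x * ∑ l ∈ Finset.range N, Ga ^ l / NN J (((i + 1 : ℕ) : ℤ) - l) := by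
            rw [Finset.mul_sum]
        _ ≤ x * (3 * Ga ^ (i + 1) / Ga ^ J) :=
            mul_le_mul_of_nonneg_left (sum_le J (i + 1) N) hx
        _ ≤ δ * Ga ^ i * x := by
            have h2 : x * (3 * Ga ^ (i + 1) / Ga ^ J) = (3 * Ga / Ga ^ J) * (Ga ^ i * x) := by
              ring
            rw [h2]
            have h3 : 0 ≤ Ga ^ i * x := mul_nonneg (by positivity) hx
            calc (3 * Ga / Ga ^ J) * (Ga ^ i * x) ≤ δ * (Ga ^ i * x) :=
                  mul_le_mul_of_nonneg_right hJ1 h3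
              _ = δ * Ga ^ i * x := by ring

end

end Pool.Agent.Helper98.KF
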